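import Pool.Agent.Helper95_PSC.Stmts

set_option autoImplicit false

/-!
Module ParStmt: parents and children of faces.
-/

namespace Pool.Agent.PSC.H27

open Pool.Agent.Helper40_Pisot Pool.Agent.PSC MeasureTheory

variable {m : ℕ}

theorem ht_add (l : Fin (m + 1) → ℝ) (v w : Lat m) : ht l (v + w) = ht l v + ht l w := by
  unfold ht
  rw [← Finset.sum_add_distrib]
  refine Finset.sum_congr rfl fun i _ => ?_
  rw [Pi.add_apply]
  push_cast
  ring

theorem ht_zero (l : Fin (m + 1) → ℝ) : ht l (0 : Lat m) = 0 := by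
  unfold ht
  refine Finset.sum_eq_zero fun i _ => ?_
  rw [Pi.zero_apply]
  push_cast
  ring

theorem ht_ee (l : Fin (m + 1) → ℝ) (a : Fin (m + 1)) : ht l (ee a : Lat m) = l a := by
  unfold ht ee
  rw [Finset.sum_eq_single a]
  · rw [Pi.single_eq_same]
    push_cast
    ring
  · intro b _ hb
    rw [Pi.single_eq_of_ne hb]
    push_cast
    ring
  · intro h
    exact absurd (Finset.mem_univ a) h

theorem cnt_nil : cnt ([] : List (Fin (m + 1))) = (0 : Lat m) := by
  funext i
  simp [cnt]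

theorem cnt_append (u w : List (Fin (m + 1))) : (cnt (u ++ w) : Lat m) = cnt u + cnt w := by
  funext i
  simp only [cnt, Pi.add_apply, List.count_append]
  push_cast
  rfl

theorem cnt_single (a : Fin (m + 1)) : (cnt [a] : Lat m) = ee a := by
  funext i
  by_cases h : i = a
  · subst h
    simp [cnt, ee]
  · have h0 : List.count i [a] = 0 := by
      rw [List.count_eq_zero]
      simp [h]
    simp only [cnt, ee]
    rw [h0, Pi.single_eq_of_ne h]
    rfl

theorem cnt_take_succ {w : List (Fin (m + 1))} {j : ℕ} {a : Fin (m + 1)} (h : w[j]? = some a) :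
    (cnt (w.take (j + 1)) : Lat m) = cnt (w.take j) + ee a := by
  rw [List.take_add_one, h, cnt_append]
  congr 1
  exact cnt_single a

theorem ht_cnt_nonneg {l : Fin (m + 1) → ℝ} (hl : ∀ i, 0 < l i) (w : List (Fin (m + 1))) :
    0 ≤ ht l (cnt w : Lat m) := by
  unfold ht cnt
  refine Finset.sum_nonneg fun i _ => mul_nonneg (hl i).le ?_
  exact_mod_cast Nat.zero_le _

/-- the height of the `j`-th vertex of a path -/
noncomputable def HH (l : Fin (m + 1) → ℝ) (w : List (Fin (m + 1))) (j : ℕ) : ℝ :=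
  ht l (cnt (w.take j) : Lat m)

theorem HH_succ {l : Fin (m + 1) → ℝ} {w : List (Fin (m + 1))} {j : ℕ} {a : Fin (m + 1)}
    (h : w[j]? = some a) : HH l w (j + 1) = HH l w j + l a := by
  unfold HH
  rw [cnt_take_succ h, ht_add, ht_ee]

theorem HH_mono {l : Fin (m + 1) → ℝ} (hl : ∀ i, 0 < l i) (w : List (Fin (m + 1))) {i j : ℕ}
    (h : i ≤ j) : HH l w i ≤ HH l w j := by
  obtain ⟨u, hu⟩ : ∃ u, w.take j = w.take i ++ u := by
    refine ⟨(w.take j).drop i, ?_⟩
    have h1 := (List.take_append_drop i (w.take j)).symm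
    rwa [List.take_take, min_eq_left h] at h1
  unfold HH
  rw [hu, cnt_append, ht_add]
  linarith [ht_cnt_nonneg hl u]

theorem HH_zero (l : Fin (m + 1) → ℝ) (w : List (Fin (m + 1))) : HH l w 0 = 0 := by
  unfold HH
  rw [List.take_zero, cnt_nil, ht_zero]

theorem HH_ge {l : Fin (m + 1) → ℝ} {w : List (Fin (m + 1))} {j : ℕ}
    (h : w.length ≤ j) : HH l w j = ht l (cnt w : Lat m) := by
  unfold HH
  rw [List.take_of_length_le h]

theorem cnt_it {σ : Fin (m + 1) → List (Fin (m + 1))} {M : Matrix (Fin (m + 1)) (Fin (m + 1)) ℤ}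
    (hM : Inc σ M) (n : ℕ) (b : Fin (m + 1)) :
    (cnt (it σ n [b]) : Lat m) = (M ^ n).mulVec (ee b) := by
  funext i
  rw [cnt, count_it_single hM, ee, Matrix.mulVec_single_one]
  rfl

theorem ht_mulVec {M : Matrix (Fin (m + 1)) (Fin (m + 1)) ℤ} {r : ℝ} {l : Fin (m + 1) → ℝ}
    (h : ∀ j, ∑ i, l i * (M i j : ℝ) = r * l j) (v : Lat m) :
    ht l (M.mulVec v) = r * ht l v := by
  unfold ht Matrix.mulVec dotProduct
  have h1 : ∀ i, l i * ((∑ j, M i j * v j : ℤ) : ℝ) = ∑ j, l i * (M i j : ℝ) * (v j : ℝ) := by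
    intro i
    push_cast
    rw [Finset.mul_sum]
    refine Finset.sum_congr rfl fun j _ => ?_
    ring
  rw [Finset.sum_congr rfl fun i _ => h1 i, Finset.sum_comm, Finset.mul_sum]
  refine Finset.sum_congr rfl fun j _ => ?_
  rw [← Finset.sum_mul, h j]
  ring

theorem ht_pow_mulVec {M : Matrix (Fin (m + 1)) (Fin (m + 1)) ℤ} {r : ℝ} {l : Fin (m + 1) → ℝ}
    (h : ∀ j, ∑ i, l i * (M i j : ℝ) = r * l j) (n : ℕ) (v : Lat m) :
    ht l ((M ^ n).mulVec v) = r ^ n * ht l v := by
  induction n generalizing v with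
  | zero => rw [pow_zero, Matrix.one_mulVec, pow_zero, one_mul]
  | succ n ih =>
    rw [pow_succ, ← Matrix.mulVec_mulVec, ih, ht_mulVec h]
    ring

/-- the heights along a path -/
theorem ht_par {σ : Fin (m + 1) → List (Fin (m + 1))} {M : Matrix (Fin (m + 1)) (Fin (m + 1)) ℤ}
    {r : ℝ} {l : Fin (m + 1) → ℝ} (h : ∀ j, ∑ i, l i * (M i j : ℝ) = r * l j) (n : ℕ)
    (G : Face m) (j : ℕ) :
    ht l ((M ^ n).mulVec G.1 + cnt ((it σ n [G.2]).take j)) =
      r ^ n * ht l G.1 + HH l (it σ n [G.2]) j := by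
  rw [ht_add, ht_pow_mulVec h]
  rfl

theorem HH_len {σ : Fin (m + 1) → List (Fin (m + 1))} {M : Matrix (Fin (m + 1)) (Fin (m + 1)) ℤ}
    (hM : Inc σ M) {r : ℝ} {l : Fin (m + 1) → ℝ} (h : ∀ j, ∑ i, l i * (M i j : ℝ) = r * l j)
    (n : ℕ) (b : Fin (m + 1)) {j : ℕ} (hj : (it σ n [b]).length ≤ j) :
    HH l (it σ n [b]) j = r ^ n * l b := by
  rw [HH_ge hj, cnt_it hM, ht_pow_mulVec h, ht_ee]

theorem mulVec_pow_injective {M : Matrix (Fin (m + 1)) (Fin (m + 1)) ℤ} {r : ℝ}
    (hM : PisotMat M r) (n : ℕ) : Function.Injective (fun v : Lat m => (M ^ n).mulVec v) := by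
  have hdet : IsUnit (M ^ n).det := by
    rw [Matrix.det_pow]
    refine IsUnit.pow n ?_
    rcases hM.det with h | h
    · rw [h]
      exact isUnit_one
    · rw [h]
      exact isUnit_one.neg
  intro v w hvw
  have h1 := congrArg (fun x => (M ^ n)⁻¹.mulVec x) hvw
  simp only [Matrix.mulVec_mulVec, Matrix.nonsing_inv_mul _ hdet, Matrix.one_mulVec] at h1
  exact h1

/-- Module ParStmt. -/
theorem par : ParStmt := by
  intro m σ M r α l a0 x0 D
  have hr0 : 0 < r := lt_trans one_pos D.pf.one_lt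
  have hl := D.pf.l_pos
  have he := D.pf.l_eig
  refine ⟨?_, ?_, ?_, ?_⟩
  · intro n t G hG
    have hrn : 0 < r ^ n := pow_pos hr0 n
    obtain ⟨w, hw⟩ : ∃ w, w = it σ n [G.2] := ⟨_, rfl⟩
    obtain ⟨s, hs⟩ : ∃ s, s = r ^ n * t - r ^ n * ht l G.1 := ⟨_, rfl⟩
    have hs0 : 0 ≤ s := by
      have := mul_le_mul_of_nonneg_left hG.1 hrn.le
      linarith
    have hs1 : s < r ^ n * l G.2 := by
      have := mul_lt_mul_of_pos_left hG.2 hrn
      rw [mul_add] at this
      linarith
    classical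
    have hex : ∃ j, s < HH l w (j + 1) := by
      refine ⟨w.length, ?_⟩
      rw [hw, HH_len D.inc he n G.2 (by rw [← hw]; omega)]
      exact hs1
    obtain ⟨j, hj, hmin⟩ : ∃ j, s < HH l w (j + 1) ∧ ∀ i < j, ¬ s < HH l w (i + 1) :=
      ⟨Nat.find hex, Nat.find_spec hex, fun i hi => Nat.find_min hex hi⟩
    have hj0 : HH l w j ≤ s := by
      rcases Nat.eq_zero_or_pos j with h0 | h0
      · rw [h0, HH_zero]
        exact hs0
      · have := hmin (j - 1) (by omega)
        rw [Nat.sub_add_cancel h0] at this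
        exact not_lt.1 this
    have hjl : j < w.length := by
      by_contra h
      push Not at h
      rw [HH_ge h] at hj0
      rw [HH_ge (by omega)] at hj
      linarith
    have hget : w[j]? = some w[j] := List.getElem?_eq_getElem hjl
    have hpar : ∀ i, ht l ((M ^ n).mulVec G.1 + cnt (w.take i)) = r ^ n * ht l G.1 + HH l w i := by
      intro i
      rw [hw]
      exact ht_par he n G i
    refine ⟨((M ^ n).mulVec G.1 + cnt (w.take j), w[j]), ⟨⟨j, ?_, ?_⟩, ?_⟩, ?_⟩
    · rw [← hw]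
      exact hget
    · rw [← hw]
    · constructor
      · simp only
        rw [hpar]
        linarith
      · simp only
        rw [hpar]
        have h1 := HH_succ (l := l) hget
        rw [h1] at hj
        linarith
    · rintro ⟨v, c⟩ ⟨⟨i, hi, hv⟩, h1, h2⟩
      simp only at hi hv h1 h2
      rw [← hw] at hi hv
      rw [hv, hpar] at h1 h2
      have h3 := HH_succ (l := l) hi
      have hij : i = j := by
        rcases lt_trichotomy i j with h | h | h
        · have := HH_mono (l := l) hl w (show i + 1 ≤ j by omega)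
          linarith
        · exact h
        · have := HH_mono (l := l) hl w (show j + 1 ≤ i by omega)
          linarith
      subst hij
      rw [hget] at hi
      rw [Prod.mk.injEq]
      exact ⟨hv, (Option.some_inj.1 hi).symm⟩
  · rintro n t G F ⟨j, hj, hF⟩ ⟨h1, h2⟩
    have hrn : 0 < r ^ n := pow_pos hr0 n
    rw [hF, ht_par he] at h1 h2
    have h3 := HH_succ (l := l) hj
    have h0 : 0 ≤ HH l (it σ n [G.2]) j := by
      rw [← HH_zero l (it σ n [G.2])]
      exact HH_mono hl _ (Nat.zero_le _)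
    have h4 : HH l (it σ n [G.2]) (j + 1) ≤ r ^ n * l G.2 := by
      rw [← HH_len D.inc he n G.2 (le_max_left (it σ n [G.2]).length (j + 1))]
      exact HH_mono hl _ (le_max_right _ _)
    constructor
    · refine le_of_mul_le_mul_left ?_ hrn
      linarith
    · refine lt_of_mul_lt_mul_left ?_ hrn.le
      rw [mul_add]
      linarith
  · intro n F
    have hsub : {G : Face m | Par σ M n G F} ⊆
        ⋃ b : Fin (m + 1), ⋃ j : Fin (it σ n [b]).length,
          {G : Face m | G.2 = b ∧ F.1 = (M ^ n).mulVec G.1 + cnt ((it σ n [b]).take j)} := by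
      rintro G ⟨j, hj, hF⟩
      have hjl : j < (it σ n [G.2]).length := by
        by_contra h
        push Not at h
        rw [List.getElem?_eq_none h] at hj
        exact absurd hj (by simp)
      exact Set.mem_iUnion.2 ⟨G.2, Set.mem_iUnion.2 ⟨⟨j, hjl⟩, rfl, hF⟩⟩
    refine Set.Finite.subset ?_ hsub
    refine Set.finite_iUnion fun b => Set.finite_iUnion fun j => ?_
    refine Set.Subsingleton.finite ?_
    rintro ⟨v, c⟩ ⟨hc, hv⟩ ⟨v', c'⟩ ⟨hc', hv'⟩
    simp only at hc hv hc' hv'
    rw [Prod.mk.injEq]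
    refine ⟨?_, hc.trans hc'.symm⟩
    apply mulVec_pow_injective D.pis n
    simp only
    rw [hv] at hv'
    exact add_right_cancel hv'
  · rintro n v G F ⟨j, hj, hF⟩
    refine ⟨j, hj, ?_⟩
    simp only [tr]
    rw [hF, Matrix.mulVec_add, add_assoc]

end Pool.Agent.PSC.H27
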