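import Pool.Agent.Helper27_PSC.Par
import Pool.Agent.Helper40_PSC.Tile

set_option autoImplicit false

/-!
Module GifsStmt: the graph directed iterated function system, up to null sets.
-/

namespace Pool.Agent.PSC.H27

open Pool.Agent.Helper40_Pisot MeasureTheory

variable {m : ℕ}

theorem mulVec_pow_surjective {M : Matrix (Fin (m + 1)) (Fin (m + 1)) ℤ} {r : ℝ}
    (h : PisotMat M r) (n : ℕ) (v : Lat m) : ∃ u : Lat m, (M ^ n).mulVec u = v := by
  have hu : IsUnit (M ^ n) := by
    apply IsUnit.pow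
    rw [Matrix.isUnit_iff_isUnit_det]
    rcases h.det with h1 | h1
    · rw [h1]; exact isUnit_one
    · rw [h1]; exact isUnit_one.neg
  obtain ⟨N, hN⟩ := hu.exists_right_inv
  refine ⟨N.mulVec v, ?_⟩
  rw [Matrix.mulVec_mulVec, hN, Matrix.one_mulVec]

/-- sums of the coordinates of an abelianization -/
theorem sum_cnt (w : List (Fin (m + 1))) : ∑ i, ((cnt w : Lat m) i : ℝ) = (w.length : ℝ) := by
  induction w using List.reverseRecOn with
  | nil =>
    rw [cnt_nil]
    simp
  | append_singleton w a ih =>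
    rw [cnt_append, cnt_single]
    simp only [Pi.add_apply, Int.cast_add]
    rw [Finset.sum_add_distrib, ih, List.length_append]
    have h1 : ∑ i, ((ee a : Lat m) i : ℝ) = 1 := by
      unfold ee
      rw [Finset.sum_eq_single a]
      · rw [Pi.single_eq_same]; norm_num
      · intro b _ hb
        rw [Pi.single_eq_of_ne hb]; norm_num
      · intro h
        exact absurd (Finset.mem_univ a) h
    rw [h1]
    simp

theorem pr_cnt (α : Fin (m + 1) → ℝ) (w : List (Fin (m + 1))) :
    pr α (cnt w : Lat m) = fun i : Fin m => disc α w i.castSucc := by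
  funext i
  unfold pr disc
  rw [sum_cnt]
  rfl

/-- the parent of `F` given by an index -/
theorem tile_piece {σ : Fin (m + 1) → List (Fin (m + 1))}
    {M : Matrix (Fin (m + 1)) (Fin (m + 1)) ℤ} {α : Fin (m + 1) → ℝ}
    (x0 : ℤ → Fin (m + 1)) (hB : ∀ (n : ℕ) (v : Lat m), Bn M α n (pr α v) = pr α ((M ^ n).mulVec v))
    (n : ℕ) (G F : Face m) (t : ℕ) (h : F.1 = (M ^ n).mulVec G.1 + cnt ((it σ n [G.2]).take t))
    (w : E m) : pr α F.1 + ph α x0 - piece σ M α (ph α x0) n ⟨G.2, t⟩ w =
      Bn M α n (pr α G.1 + ph α x0 - w) := by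
  have h1 : Bn M α n (pr α G.1 + ph α x0 - w) = Bn M α n (pr α G.1) + Bn M α n (ph α x0) -
      Bn M α n w := by
    rw [map_sub, map_add]
  have h2 : Bn M α n (ph α x0) = (Bred M α n).mulVec (ph α x0) := Matrix.toLin'_apply _ _
  have h3 : piece σ M α (ph α x0) n ⟨G.2, t⟩ w = (ph α x0 - (Bred M α n).mulVec (ph α x0) +
      pr α (cnt ((it σ n [G.2]).take t) : Lat m)) + Bn M α n w := by
    rw [pr_cnt]
    rfl
  rw [h1, h2, h3, hB, h, Pool.Agent.Helper40_PSC.pr_add]
  abel

theorem gifs (hBs : LatBStmt) : GifsStmt := by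
  intro m σ M r α l a0 x0 D
  obtain ⟨hB1, -, -, hB4, -, hB6⟩ := hBs m σ M r α l a0 x0 D
  obtain ⟨C, hC0, hC⟩ := disc_lang_bound D.inc D.pf
  have hp := prim_of_pf D.inc D.pf
  have hcR : ∀ i, IsCompact (Rset σ α i) := fun i => isCompact_Rset D.ne hp hC i
  have hmR : ∀ i, MeasurableSet (Rset σ α i) := fun i => (hcR i).measurableSet
  have hvt : ∀ F : Face m, volume (tile σ α x0 F) = volume (Rset σ α F.2) := fun F =>
    Pool.Agent.Helper40_PSC.volume_tile σ α x0 F (hmR F.2)
  have hct : ∀ F : Face m, IsCompact (tile σ α x0 F) := fun F =>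
    (hcR F.2).image (continuous_const.sub continuous_id)
  have hfin : ∀ F : Face m, volume (tile σ α x0 F) ≠ ⊤ := fun F => (hct F).measure_lt_top.ne
  have hBc : ∀ n, Continuous (Bn M α n) := fun n => LinearMap.continuous_of_finiteDimensional _
  -- the key facts
  have key : ∀ (n : ℕ) (F : Face m), ∃ s : Finset (Face m), (∀ G, G ∈ s ↔ Par σ M n G F) ∧
      tile σ α x0 F ⊆ (⋃ G ∈ s, Bn M α n '' tile σ α x0 G) ∧
      ∑ G ∈ s, volume (Bn M α n '' tile σ α x0 G) ≤ volume (tile σ α x0 F) := by
    classical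
    intro n F
    choose u hu using fun v : Lat m => mulVec_pow_surjective D.pis n v
    set gp : ((_ : Fin (m + 1)) × ℕ) → Face m := fun p =>
      (u (F.1 - cnt ((it σ n [p.1]).take p.2)), p.1) with hgp
    have hgp1 : ∀ p : (_ : Fin (m + 1)) × ℕ,
        F.1 = (M ^ n).mulVec (gp p).1 + cnt ((it σ n [(gp p).2]).take p.2) := by
      intro p
      simp only [hgp]
      rw [hu, sub_add_cancel]
    refine ⟨(Idx σ n F.2).image gp, ?_, ?_, ?_⟩
    · intro G
      rw [Finset.mem_image]
      constructor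
      · rintro ⟨p, hp, rfl⟩
        unfold Idx at hp
        rw [Finset.mem_sigma, Finset.mem_filter] at hp
        exact ⟨p.2, hp.2.2, hgp1 p⟩
      · rintro ⟨t, ht1, ht2⟩
        refine ⟨⟨G.2, t⟩, ?_, ?_⟩
        · unfold Idx
          rw [Finset.mem_sigma, Finset.mem_filter, Finset.mem_range]
          refine ⟨Finset.mem_univ _, ?_, ht1⟩
          exact (List.getElem?_eq_some_iff.1 ht1).1
        · have h1 := hgp1 ⟨G.2, t⟩
          have h2 : (M ^ n).mulVec (gp ⟨G.2, t⟩).1 = (M ^ n).mulVec G.1 := by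
            have h3 := h1.symm.trans ht2
            exact add_right_cancel h3
          have h4 := mulVec_pow_injective D.pis n h2
          exact Prod.ext h4 rfl
    · rintro y ⟨w, hw, rfl⟩
      have h1 := setEq D.inc D.pf D.hm D.ne hC D.fix n F.2 hw
      simp only [Set.mem_iUnion] at h1
      obtain ⟨p, hp, w', hw', rfl⟩ := h1
      simp only [Set.mem_iUnion]
      refine ⟨gp p, Finset.mem_image_of_mem _ hp, ?_⟩
      have h2 := tile_piece (σ := σ) x0 hB1 n (gp p) F p.2 (hgp1 p) w'
      refine ⟨pr α (gp p).1 + ph α x0 - w', ⟨w', hw', rfl⟩, ?_⟩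
      exact h2.symm
    · have h1 : ∑ G ∈ (Idx σ n F.2).image gp, volume (Bn M α n '' tile σ α x0 G) ≤
          ∑ p ∈ Idx σ n F.2, volume (Bn M α n '' tile σ α x0 (gp p)) := by
        rw [Finset.sum_image]
        intro p hp q hq hpq
        unfold Idx at hp hq
        rw [Finset.mem_coe, Finset.mem_sigma, Finset.mem_filter, Finset.mem_range] at hp hq
        have e1 : p.1 = q.1 := congrArg Prod.snd hpq
        have e2 : (gp p).1 = (gp q).1 := congrArg Prod.fst hpq
        have e3 := (hgp1 p).symm.trans (hgp1 q)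
        rw [e2] at e3
        have e4 := add_left_cancel e3
        have e5 : (cnt ((it σ n [p.1]).take p.2) : Lat m) = cnt ((it σ n [q.1]).take q.2) := e4
        have e6 : ∑ i, ((cnt ((it σ n [p.1]).take p.2) : Lat m) i : ℝ) =
            ∑ i, ((cnt ((it σ n [q.1]).take q.2) : Lat m) i : ℝ) := by rw [e5]
        rw [sum_cnt, sum_cnt, List.length_take, List.length_take] at e6
        have e7 : min p.2 (it σ n [p.1]).length = min q.2 (it σ n [q.1]).length := by
          exact_mod_cast e6
        have e8 : p.2 = q.2 := by omega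
        obtain ⟨p1, p2⟩ := p
        obtain ⟨q1, q2⟩ := q
        simp only at e1 e8
        rw [e1, e8]
      refine h1.trans ?_
      have hr0 : 0 < r ^ n := pow_pos (by linarith [D.pf.one_lt]) n
      have h2 : ∀ p ∈ Idx σ n F.2, volume (Bn M α n '' tile σ α x0 (gp p)) =
          ENNReal.ofReal ((r ^ n)⁻¹) * volume (Rset σ α p.1) := by
        intro p _
        rw [hB6, hvt]
      rw [Finset.sum_congr rfl h2, ← Finset.mul_sum, hvt]
      have hRfin : ∀ j, volume (Rset σ α j) ≠ ⊤ := fun j => (hcR j).measure_lt_top.ne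
      have hsfin : ∑ p ∈ Idx σ n F.2, volume (Rset σ α p.1) ≠ ⊤ :=
        ENNReal.sum_ne_top.2 fun p _ => hRfin p.1
      apply le_of_eq
      apply (ENNReal.toReal_eq_toReal_iff' (ENNReal.mul_ne_top ENNReal.ofReal_ne_top hsfin)
        (hRfin _)).1
      rw [ENNReal.toReal_mul, ENNReal.toReal_ofReal (inv_pos.2 hr0).le,
        ENNReal.toReal_sum fun p _ => hRfin p.1]
      have h3 : ∑ p ∈ Idx σ n F.2, (volume (Rset σ α p.1)).toReal =
          ∑ j, ((M ^ n) F.2 j : ℝ) * (volume (Rset σ α j)).toReal := by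
        unfold Idx
        rw [Finset.sum_sigma]
        refine Finset.sum_congr rfl fun j _ => ?_
        change ∑ s ∈ (Finset.range (it σ n [j]).length).filter
          (fun t => (it σ n [j])[t]? = some F.2), (volume (Rset σ α j)).toReal = _
        rw [Finset.sum_const, card_filter_count, nsmul_eq_mul]
        congr 1
        have := count_it_single D.inc n j F.2
        exact_mod_cast this
      rw [h3, Pool.Agent.Helper40_PSC.vol_eig D n F.2]
      rw [← mul_assoc, inv_mul_cancel₀ hr0.ne', one_mul]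
  constructor
  · intro n F
    obtain ⟨s, hs, h1, h2⟩ := key n F
    have hU : volume (⋃ G ∈ s, Bn M α n '' tile σ α x0 G) ≤ volume (tile σ α x0 F) :=
      (measure_biUnion_finset_le _ _).trans h2
    have hd : volume ((⋃ G ∈ s, Bn M α n '' tile σ α x0 G) \ tile σ α x0 F) = 0 := by
      rw [measure_sdiff h1 (hct F).measurableSet.nullMeasurableSet (hfin F)]
      exact tsub_eq_zero_of_le hU
    have hae : ∀ᵐ y ∂(volume : Measure (E m)),
        y ∉ (⋃ G ∈ s, Bn M α n '' tile σ α x0 G) \ tile σ α x0 F :=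
      measure_eq_zero_iff_ae_notMem.1 hd
    filter_upwards [hae] with y hy
    constructor
    · intro hyF
      have h3 := h1 hyF
      simp only [Set.mem_iUnion] at h3
      obtain ⟨G, hG, hyG⟩ := h3
      exact ⟨G, (hs G).1 hG, hyG⟩
    · rintro ⟨G, hG, hyG⟩
      by_contra hcon
      apply hy
      refine ⟨?_, hcon⟩
      simp only [Set.mem_iUnion]
      exact ⟨G, (hs G).2 hG, hyG⟩
  · intro n G G' F hG hG' hne
    classical
    obtain ⟨s, hs, h1, h2⟩ := key n F
    have h3 : ∑ G ∈ s, volume (Bn M α n '' tile σ α x0 G) ≤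
        volume (⋃ G ∈ s, Bn M α n '' tile σ α x0 G) := h2.trans (measure_mono h1)
    have h4 := null_inter_of_sum_le s (fun G => Bn M α n '' tile σ α x0 G)
      (fun G _ => ((hct G).image (hBc n)).measurableSet)
      (fun G _ => ((hct G).image (hBc n)).measure_lt_top.ne) h3 ((hs G).2 hG) ((hs G').2 hG') hne
    have h5 : Bn M α n '' tile σ α x0 G ∩ Bn M α n '' tile σ α x0 G' =
        Bn M α n '' (tile σ α x0 G ∩ tile σ α x0 G') :=
      (Set.image_inter (hB4 n).1).symm
    have h6 : volume (Bn M α n '' (tile σ α x0 G ∩ tile σ α x0 G')) = 0 := by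
      rw [← h5]
      exact h4
    rw [hB6, mul_eq_zero] at h6
    rcases h6 with h6 | h6
    · exfalso
      have hr0 : 0 < r ^ n := pow_pos (by linarith [D.pf.one_lt]) n
      rw [ENNReal.ofReal_eq_zero] at h6
      exact absurd (inv_pos.2 hr0) (not_lt.2 h6)
    · exact h6

end Pool.Agent.PSC.H27
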